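import Pool.Agent.H712.NP.LatC

/-!
# Geometric means over the spheres of radius `λ₁` about the points of a lattice or a packing

Let `X` be a set of points of `ℝⁿ` with mutual distances at least `D`, for instance a lattice with
minimum `D`, and let `f` be a positive function with `|∇ log f| ≤ K n / D`. Then the sum over
`c ∈ X` of the geometric means of `f` over the spheres of radius `D` about `c` is at most
`(e^ε √n / (π D))^n` times the integral of `f`. For `f = 1` (on a large ball) this is the bound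
`limsup γ_n / n ≤ 1 / π²` for Hermite's constant and the corresponding bound for packings.
-/

open MeasureTheory Metric Finset

namespace Pool.Agent.Results.MP_ef2672_gt.GeometricMeans

/-- The lattice vector `A z`. -/
noncomputable def latVec {n : ℕ} (A : Matrix (Fin n) (Fin n) ℝ) (z : Fin n → ℤ) :
    EuclideanSpace ℝ (Fin n) :=
  WithLp.toLp 2 (A.mulVec fun i => (z i : ℝ))

/-- The lattice `A ℤⁿ` has rank `n` and its nonzero vectors have length at least `D > 0`. -/
def HasMin {n : ℕ} (A : Matrix (Fin n) (Fin n) ℝ) (D : ℝ) : Prop :=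
  A.det ≠ 0 ∧ 0 < D ∧ ∀ z : Fin n → ℤ, z ≠ 0 → D ≤ ‖latVec A z‖

/-- The geometric mean of `f` over the sphere with centre `c` and radius `D` (with respect to its
surface measure). -/
noncomputable def geoMean {n : ℕ} (f : EuclideanSpace ℝ (Fin n) → ℝ)
    (c : EuclideanSpace ℝ (Fin n)) (D : ℝ) : ℝ :=
  Real.exp (⨍ u : sphere (0 : EuclideanSpace ℝ (Fin n)) 1,
    Real.log (f (c + D • (u : EuclideanSpace ℝ (Fin n))))
      ∂(volume : Measure (EuclideanSpace ℝ (Fin n))).toSphere)

/-- The function `log f` is Lipschitz with constant `L`. -/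
def LogLip {n : ℕ} (f : EuclideanSpace ℝ (Fin n) → ℝ) (L : ℝ) : Prop :=
  ∀ x y, |Real.log (f x) - Real.log (f y)| ≤ L * ‖x - y‖

/-- The number of the points of the lattice `A ℤⁿ` at distance at most `D` from `y`. -/
noncomputable def latCount {n : ℕ} (A : Matrix (Fin n) (Fin n) ℝ) (D : ℝ)
    (y : EuclideanSpace ℝ (Fin n)) : ℕ :=
  {z : Fin n → ℤ | ‖y - latVec A z‖ ≤ D}.ncard

/-- **Geometric means over spheres of radius `λ₁`.** -/
theorem result :
    -- periodic functions, lattices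
    (∀ K ε : ℝ, 0 ≤ K → 0 < ε → ∃ n0 : ℕ, ∀ n ≥ n0, ∀ (A : Matrix (Fin n) (Fin n) ℝ) (D : ℝ),
      HasMin A D → ∀ f : EuclideanSpace ℝ (Fin n) → ℝ, (∀ x, 0 < f x) → LogLip f (K * n / D) →
      (∀ x z, f (x + latVec A z) = f x) → ∀ a,
      geoMean f a D ≤ (Real.exp ε * √n / (Real.pi * D)) ^ n * (|A.det| *
        ∫ y in Set.univ.pi fun _ : Fin n => Set.Ico (0 : ℝ) 1, f (WithLp.toLp 2 (A.mulVec y)))) ∧
    -- the number of lattice points at distance at most `D`
    (∀ ε : ℝ, 0 < ε → ∃ n0 : ℕ, ∀ n ≥ n0, ∀ (A : Matrix (Fin n) (Fin n) ℝ) (D : ℝ),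
      HasMin A D → geoMean (fun y => (latCount A D y : ℝ)) 0 D ≤
        (Real.exp ε * √(2 * Real.exp 1 / Real.pi)) ^ n) ∧
    -- packings
    (∀ K ε : ℝ, 0 ≤ K → 0 < ε → ∃ n0 : ℕ, ∀ n ≥ n0, ∀ D : ℝ, 0 < D →
      ∀ X : Finset (EuclideanSpace ℝ (Fin n)), (∀ c ∈ X, ∀ c' ∈ X, c ≠ c' → D ≤ ‖c - c'‖) →
      ∀ f : EuclideanSpace ℝ (Fin n) → ℝ, (∀ x, 0 < f x) → LogLip f (K * n / D) →
      Integrable f → ∑ c ∈ X, geoMean f c D ≤ (Real.exp ε * √n / (Real.pi * D)) ^ n * ∫ x, f x) ∧
    -- weighted numbers of points at distance at most `D`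
    (∀ ε : ℝ, 0 < ε → ∃ n0 : ℕ, ∀ n ≥ n0, ∀ D : ℝ, 0 < D →
      ∀ X : Finset (EuclideanSpace ℝ (Fin n)), (∀ c ∈ X, ∀ c' ∈ X, c ≠ c' → D ≤ ‖c - c'‖) →
      ∀ p : EuclideanSpace ℝ (Fin n) → ℝ, (∀ c ∈ X, 0 < p c) →
      ∑ c ∈ X, geoMean (fun y => ∑ c' ∈ X, if ‖y - c'‖ ≤ D then p c' else 0) c D ≤
        (Real.exp ε * √(2 * Real.exp 1 / Real.pi)) ^ n * ∑ c ∈ X, p c) := by
  refine ⟨?_, ?_, ?_, ?_⟩
  · intro K ε hK hε
    obtain ⟨n0, H⟩ := Pool.Agent.H712.NP.lattice_fun hK hε
    refine ⟨n0, fun n hn A D hA f hf hL hp a => ?_⟩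
    obtain ⟨hdet, hD, hmin⟩ := hA
    have h := H n hn A hdet D hD hmin (fun x => -Real.log (f x)) (by
      intro x y
      rw [show -Real.log (f x) - -Real.log (f y) = -(Real.log (f x) - Real.log (f y)) by ring,
        abs_neg]
      exact hL x y) (by
      intro x z
      have := hp x z
      show -Real.log (f (x + Pool.Agent.H712.NP.lv A z)) = _
      rw [show f (x + Pool.Agent.H712.NP.lv A z) = f x from this]) a
    have e1 : ∀ x, Real.exp (- -Real.log (f x)) = f x := fun x => by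
      rw [neg_neg, Real.exp_log (hf x)]
    simp only [Pool.Agent.H712.NP.sphMean_neg, e1] at h
    have hcube : Pool.Agent.H712.NP.cb (0 : Fin n → ℤ) =
        Set.univ.pi fun _ : Fin n => Set.Ico (0 : ℝ) 1 := by
      unfold Pool.Agent.H712.NP.cb
      simp
    rw [hcube] at h
    have hfc : Continuous f := by
      have hΛ : 0 ≤ K * n / D := by positivity
      have h1 : LipschitzWith ⟨K * n / D, hΛ⟩ fun x => Real.log (f x) :=
        LipschitzWith.of_dist_le_mul fun x y => by
          rw [Real.dist_eq, dist_eq_norm]; exact hL x y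
      have h2 : f = fun x => Real.exp (Real.log (f x)) := by
        funext x; rw [Real.exp_log (hf x)]
      rw [h2]
      exact Real.continuous_exp.comp h1.continuous
    have hgc : Continuous fun y : Fin n → ℝ => f (WithLp.toLp 2 (A.mulVec y)) :=
      hfc.comp (Pool.Agent.H712.NP.pt_cont A)
    have hint : IntegrableOn (fun y : Fin n → ℝ => f (WithLp.toLp 2 (A.mulVec y)))
        (Set.univ.pi fun _ : Fin n => Set.Ico (0 : ℝ) 1) := by
      have hc : IsCompact (Set.univ.pi fun _ : Fin n => Set.Icc (0 : ℝ) 1) :=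
        isCompact_univ_pi fun _ => isCompact_Icc
      exact (hgc.continuousOn.integrableOn_compact hc).mono_set
        (Set.pi_mono fun _ _ => Set.Ico_subset_Icc_self)
    have e2 : ∫⁻ y in Set.univ.pi fun _ : Fin n => Set.Ico (0 : ℝ) 1,
        ENNReal.ofReal (f (Pool.Agent.H712.NP.pt A y)) =
        ENNReal.ofReal (∫ y in Set.univ.pi fun _ : Fin n => Set.Ico (0 : ℝ) 1,
          f (WithLp.toLp 2 (A.mulVec y))) :=
      (ofReal_integral_eq_lintegral_ofReal hint (ae_of_all _ fun _ => (hf _).le)).symm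
    rw [e2, ← ENNReal.ofReal_mul (by positivity)] at h
    have hnn : 0 ≤ ∫ y in Set.univ.pi fun _ : Fin n => Set.Ico (0 : ℝ) 1,
        f (WithLp.toLp 2 (A.mulVec y)) := integral_nonneg fun _ => (hf _).le
    have h3 := (ENNReal.ofReal_le_ofReal_iff (by positivity)).mp h
    rw [neg_neg, mul_assoc] at h3
    exact h3
  · intro ε hε
    obtain ⟨n0, H⟩ := Pool.Agent.H712.NP.lattice_near hε
    exact ⟨n0, fun n hn A D hA => H n hn A hA.1 D hA.2.1 hA.2.2⟩
  · intro K ε hK hε
    obtain ⟨n0, H⟩ := Pool.Agent.H712.NP.functional hK hε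
    refine ⟨n0, fun n hn D hD X hX f hf hL hfi => ?_⟩
    have h := H n hn D hD X (fun x => -Real.log (f x)) (by
      intro x y
      rw [show -Real.log (f x) - -Real.log (f y) = -(Real.log (f x) - Real.log (f y)) by ring,
        abs_neg]
      exact hL x y) hX
    have e1 : ∀ x, Real.exp (- -Real.log (f x)) = f x := fun x => by
      rw [neg_neg, Real.exp_log (hf x)]
    simp only [Pool.Agent.H712.NP.sphMean_neg, e1] at h
    rw [← ofReal_integral_eq_lintegral_ofReal hfi (ae_of_all _ fun _ => (hf _).le),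
      ← ENNReal.ofReal_sum_of_nonneg fun _ _ => (Real.exp_pos _).le,
      ← ENNReal.ofReal_mul (by positivity)] at h
    have hnn : 0 ≤ ∫ x, f x := integral_nonneg fun _ => (hf _).le
    have h3 := (ENNReal.ofReal_le_ofReal_iff (by positivity)).mp h
    simp only [neg_neg] at h3
    exact h3
  · intro ε hε
    obtain ⟨n0, H⟩ := Pool.Agent.H712.NP.neighbours hε
    refine ⟨n0, fun n hn D hD X hX p hp => ?_⟩
    rw [mul_comm]
    exact H n hn D hD X p hX hp

end Pool.Agent.Results.MP_ef2672_gt.GeometricMeans
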