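import Pool.Agent.H779.LT.Asy
import Pool.Agent.H779.RB.Rel3

/-!
# MP_ef2672_gt: Hermite's constant for lattices with some short vectors

Hermite's constant `γ_n` is the supremum of `r² / det(L)^(2/n)` over the lattices `L` without nonzero
vectors shorter than `r`. We allow up to `μ (s / r)^n` nonzero vectors shorter than `s`, for all
`s ≤ r`, and call the supremum `γ_n(μ)` (`relHermite n μ`).

1. `γ_n(μ) = γ_n` for `μ ≤ 1`, and `γ_n ≤ γ_n(μ) ≤ μ^(2/n) γ_n` for `μ ≥ 1`.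
2. `γ_n(μ') ≤ (5 (log_2 μ + 2) μ' / μ)^(2/n) γ_n(μ)` for `1 ≤ μ ≤ μ'` (sublattices).
3. `γ_n(μ) ≥ (μ / (10 (log_2 μ + 2)))^(2/n) n / (2 π e)` for `μ ≥ 1` (averaging over lattices).
4. `γ_n(μ) ≤ (1 + ε) ((2 e / π)^(n/2) + μ)^(2/n) n / (2 π e)` for `n ≥ n₀(ε)` and all `μ ≥ 0`.
5. In other words: if the expected number of points of a lattice in a ball of radius `R` is at least
   `exp(ε n) (2 e / π)^(n/2)`, then for some `s ≤ R` the number of its nonzero vectors shorter than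
   `s` reaches the expected number, up to the factor `exp(-ε n)`.
6. The question Q1 has the answer yes for the relaxed constants with `μ = 2^(u n)`,
   `u ≥ (1/2) log_2 (2 e / π) = 0.3956`: the limit of `γ_n(μ) / n` is `4^u / (2 π e)`.
7. If the limit is `4^u / (2 π e)` for one `u ≥ 0`, then for all larger parameters.
8. `γ_n / n → 1 / (2 π e)`, the believed value, if and only if `γ_n(2^(u n)) / n → 4^u / (2 π e)`
   for all `u > 0`.
9. If `γ_n(2^(u n)) / n` converges for arbitrarily small `u > 0`, then `γ_n / n` converges.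
-/

open MeasureTheory Filter Topology Metric

open Pool.Agent.H160R3.Herm Pool.Agent.H779.LT

namespace Pool.Agent.Results.MP_ef2672_gt.RelaxedHermite

/-- **Relaxed Hermite constants.** -/
theorem result :
    -- (1) comparison with Hermite's constant
    (∀ n : ℕ, 0 < n → ∀ μ : ℝ, 0 ≤ μ → (μ ≤ 1 → relHermite n μ = hermite n) ∧
      hermite n ≤ relHermite n μ ∧
      (1 ≤ μ → relHermite n μ ≤ μ ^ ((2 : ℝ) / n) * hermite n)) ∧
    -- (2) sublattices
    (∀ n : ℕ, 0 < n → ∀ μ μ' : ℝ, 1 ≤ μ → μ ≤ μ' → relHermite n μ' ≤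
      (5 * (Real.logb 2 μ + 2) * (μ' / μ)) ^ ((2 : ℝ) / n) * relHermite n μ) ∧
    -- (3) the lower bound
    (∀ n : ℕ, 2 ≤ n → ∀ μ : ℝ, 1 ≤ μ → (μ / (10 * (Real.logb 2 μ + 2))) ^ ((2 : ℝ) / n) *
      (n / (2 * Real.pi * Real.exp 1)) ≤ relHermite n μ) ∧
    -- (4) the upper bound
    (∀ ε : ℝ, 0 < ε → ∀ᶠ n : ℕ in atTop, ∀ μ : ℝ, 0 ≤ μ → relHermite n μ ≤ (1 + ε) *
      ((2 * Real.exp 1 / Real.pi) ^ ((n : ℝ) / 2) + μ) ^ ((2 : ℝ) / n) *
      (n / (2 * Real.pi * Real.exp 1))) ∧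
    -- (5) every lattice reaches the expected number of vectors
    (∀ ε : ℝ, 0 < ε → ∀ᶠ n : ℕ in atTop, ∀ (A : Matrix (Fin n) (Fin n) ℝ) (R : ℝ), A.det ≠ 0 →
      0 < R → Real.exp (ε * n) * (2 * Real.exp 1 / Real.pi) ^ ((n : ℝ) / 2) ≤
        volume.real (ball (0 : EuclideanSpace ℝ (Fin n)) R) / |A.det| →
      ∃ s : ℝ, 0 < s ∧ s ≤ R ∧ volume.real (ball (0 : EuclideanSpace ℝ (Fin n)) s) / |A.det| ≤
        Real.exp (ε * n) * shortCount A s) ∧
    -- (6) the limit for large parameters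
    (∀ u : ℝ, 1 / 2 * Real.logb 2 (2 * Real.exp 1 / Real.pi) ≤ u →
      Tendsto (relRatio u) atTop (𝓝 (4 ^ u / (2 * Real.pi * Real.exp 1)))) ∧
    1 / 2 * Real.logb 2 (2 * Real.exp 1 / Real.pi) < (3956 / 10000 : ℝ) ∧
    -- (7) one threshold
    (∀ u v : ℝ, 0 ≤ u → u ≤ v →
      Tendsto (relRatio u) atTop (𝓝 (4 ^ u / (2 * Real.pi * Real.exp 1))) →
      Tendsto (relRatio v) atTop (𝓝 (4 ^ v / (2 * Real.pi * Real.exp 1)))) ∧
    -- (8) the believed value of the limit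
    (Tendsto (fun n : ℕ => hermite n / n) atTop (𝓝 (1 / (2 * Real.pi * Real.exp 1))) ↔
      ∀ u : ℝ, 0 < u → Tendsto (relRatio u) atTop (𝓝 (4 ^ u / (2 * Real.pi * Real.exp 1)))) ∧
    -- (9) Q1 from small parameters
    ((∀ δ : ℝ, 0 < δ → ∃ u : ℝ, 0 < u ∧ u < δ ∧ ∃ L : ℝ, Tendsto (relRatio u) atTop (𝓝 L)) →
      ∃ L : ℝ, Tendsto (fun n : ℕ => hermite n / n) atTop (𝓝 L)) := by
  have hnum := Pool.Agent.W259.GP.num_bound
  have hlp := Pool.Agent.H779.RB.logb_lp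
  refine ⟨fun n hn μ hμ => ⟨relHermite_eq hn hμ, hermite_le_relHermite hn hμ, fun h => ?_⟩,
    fun n hn μ μ' h1 h2 => rel_thin hn h1 h2, fun n hn μ hμ => rel_lower' hn hμ, rel_upper,
    reaches, fun u hu => ratio_limit hu, by linarith, fun u v h1 h2 h => ratio_threshold h1 h2 h,
    belief_iff, converge_of_small⟩
  have := relHermite_le_hermite hn hμ
  rwa [max_eq_right h] at this

end Pool.Agent.Results.MP_ef2672_gt.RelaxedHermite
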